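import Pool.Agent.L0h44.LC.Stm2
import Pool.Agent.Y364.E3.Loc
import Pool.Agent.Helper514.IoD

/-!
# Project LC (helper44), module BD1: boundary points have no Euclidean neighbourhood
-/

set_option autoImplicit false

namespace Pool.Agent.L0h6.LC

open Finset Pool.Agent.H933R3 Pool.Agent.L0h44.LC Topology
open Pool.Agent.Y364.E3 (supp mem_supp supp_mem supp_nonempty supp_mono exists_facet sum_supp)

/-- BD1 -/
theorem t_BD1 : S_BD1 := by
  intro n K hK hfac R hR hR4 hcard q hq
  rintro ⟨U, hU, hqU, W, hW, ⟨h⟩⟩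
  have hsq : supp q.1 = R := by
    ext i
    rw [mem_supp]
    exact (hq i).symm
  -- the 4-simplex
  obtain ⟨F, hF⟩ := card_eq_one.1 hcard
  have hF' : F ∈ K.filter (fun F => F.card = 5 ∧ R ⊆ F) := by rw [hF]; exact mem_singleton_self F
  rw [mem_filter] at hF'
  obtain ⟨hFK, hF5, hRF⟩ := hF'
  have hsub : ∀ σ ∈ K, R ⊆ σ → σ ⊆ F := by
    intro σ hσ hRσ
    obtain ⟨G, hG, hσG⟩ := exists_facet hσ
    have h1 : G ∈ K.filter (fun F => F.card = 5 ∧ R ⊆ F) := by
      rw [mem_filter]
      exact ⟨hG.1, hfac G hG, hRσ.trans hσG⟩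
    rw [hF, mem_singleton] at h1
    rw [← h1]
    exact hσG
  obtain ⟨a, haR, haF⟩ : ∃ a ∉ R, F = insert a R := by
    have h1 : (F \ R).card = 1 := by rw [card_sdiff_of_subset hRF]; omega
    obtain ⟨p, hp⟩ := card_eq_one.1 h1
    have hp1 : p ∈ F \ R := by rw [hp]; simp
    rw [Finset.mem_sdiff] at hp1
    refine ⟨p, hp1.2, ?_⟩
    rw [← sdiff_union_of_subset hRF, hp]
    rfl
  obtain ⟨b, hb⟩ : R.Nonempty := card_pos.1 (by omega)
  have hE : (R.erase b).card = 3 := by rw [card_erase_of_mem hb]; omega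
  let vs : Fin 4 → Fin n := Fin.snoc (α := fun _ => Fin n) (fun k => (R.erase b).orderEmbOfFin hE k) a
  have hvs3 : vs (Fin.last 3) = a := Fin.snoc_last (α := fun _ => Fin n) _ _
  have hvs : ∀ i ∈ R.erase b, ∃ k, vs k = i := by
    intro i hi
    have h1 : i ∈ Set.range ((R.erase b).orderEmbOfFin hE) := by
      rw [range_orderEmbOfFin]
      exact mem_coe.2 hi
    obtain ⟨k, hk⟩ := h1
    exact ⟨k.castSucc, by
      show Fin.snoc (α := fun _ => Fin n) _ _ _ = _
      rw [Fin.snoc_castSucc]; exact hk⟩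
  -- the centre
  let p : W := h ⟨q, hqU⟩
  have hsymm : h.symm p = ⟨q, hqU⟩ := h.symm_apply_apply _
  have hcont : Continuous (fun x : W => ((h.symm x).1 : realization K).1) :=
    continuous_subtype_val.comp (continuous_subtype_val.comp h.symm.continuous)
  have hnear : {x : W | R ⊆ supp ((h.symm x).1 : realization K).1} ∈ 𝓝 p := by
    have h3 : {y : Fin n → ℝ | R ⊆ supp y} ∈ 𝓝 (((h.symm p).1 : realization K).1) := by
      rw [hsymm, ← hsq]
      exact supp_mono q.1
    exact hcont.continuousAt h3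
  obtain ⟨ε, hε, hε1⟩ := Metric.mem_nhds_iff.1 hnear
  obtain ⟨δ, hδ, hδ1⟩ := Metric.isOpen_iff.1 hW p.1 p.2
  obtain ⟨t, ht, ht1, ht2⟩ : ∃ t : ℝ, 0 < t ∧ t < ε ∧ t < δ := by
    refine ⟨min ε δ / 2, by positivity, ?_, ?_⟩
    · have := min_le_left ε δ
      linarith
    · have := min_le_right ε δ
      linarith
  have hclW : ∀ x ∈ Metric.closedBall p.1 t, x ∈ W := fun x hx =>
    hδ1 (Metric.mem_ball.2 (lt_of_le_of_lt (Metric.mem_closedBall.1 hx) ht2))
  have hclS : ∀ x (hx : x ∈ Metric.closedBall p.1 t),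
      R ⊆ supp ((h.symm ⟨x, hclW x hx⟩).1 : realization K).1 := fun x hx => by
    have h1 : (⟨x, hclW x hx⟩ : W) ∈ Metric.ball p ε :=
      lt_of_le_of_lt (Metric.mem_closedBall.1 hx) ht1
    exact hε1 h1
  -- the map
  classical
  let g : EuclideanSpace ℝ (Fin 4) → (Fin n → ℝ) := fun x =>
    if hx : x ∈ W then ((h.symm ⟨x, hx⟩).1 : realization K).1 else 0
  have hg : ∀ x (hx : x ∈ W), g x = ((h.symm ⟨x, hx⟩).1 : realization K).1 := fun x hx => dif_pos hx
  have hgc : ContinuousOn g (Metric.closedBall p.1 t) := by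
    rw [continuousOn_iff_continuous_domRestrict]
    have h2 : (Metric.closedBall p.1 t).domRestrict g =
        fun x : Metric.closedBall p.1 t => ((h.symm ⟨x, hclW x x.2⟩).1 : realization K).1 := by
      funext x
      exact hg x (hclW x x.2)
    rw [h2]
    exact hcont.comp (Continuous.subtype_mk continuous_subtype_val _)
  let f : EuclideanSpace ℝ (Fin 4) → EuclideanSpace ℝ (Fin 4) := fun x =>
    WithLp.toLp 2 (fun k => g x (vs k))
  have hf : ∀ x k, f x k = g x (vs k) := fun x k => rfl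
  have hfc : ContinuousOn f (Metric.closedBall p.1 t) := by
    apply (PiLp.continuous_toLp 2 _).comp_continuousOn
    apply continuousOn_pi.2
    intro k
    exact (continuous_apply (vs k)).comp_continuousOn hgc
  have hfi : Set.InjOn f (Metric.closedBall p.1 t) := by
    intro x hx y hy hxy
    have hk : ∀ k, g x (vs k) = g y (vs k) := by
      intro k
      rw [← hf x k, ← hf y k, hxy]
    rw [hg x (hclW x hx), hg y (hclW y hy)] at hk
    have hsx := hclS x hx
    have hsy := hclS y hy
    have hX := (h.symm ⟨x, hclW x hx⟩).1.2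
    have hY := (h.symm ⟨y, hclW y hy⟩).1.2
    have hsx' := hsub _ (supp_mem hK hX) hsx
    have hsy' := hsub _ (supp_mem hK hY) hsy
    have e1 : ∀ i ∉ F, ((h.symm ⟨x, hclW x hx⟩).1 : realization K).1 i =
        ((h.symm ⟨y, hclW y hy⟩).1 : realization K).1 i := by
      intro i hi
      have a1 : ((h.symm ⟨x, hclW x hx⟩).1 : realization K).1 i = 0 := by
        by_contra hn
        exact hi (hsx' (mem_supp.2 hn))
      have a2 : ((h.symm ⟨y, hclW y hy⟩).1 : realization K).1 i = 0 := by
        by_contra hn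
        exact hi (hsy' (mem_supp.2 hn))
      rw [a1, a2]
    have e2 : ∀ i, i ≠ b → ((h.symm ⟨x, hclW x hx⟩).1 : realization K).1 i =
        ((h.symm ⟨y, hclW y hy⟩).1 : realization K).1 i := by
      intro i hib
      by_cases hi : i ∈ F
      · rw [haF, mem_insert] at hi
        rcases hi with rfl | hi
        · have := hk (Fin.last 3)
          rwa [hvs3] at this
        · obtain ⟨k, rfl⟩ := hvs i (mem_erase.2 ⟨hib, hi⟩)
          exact hk k
      · exact e1 i hi
    have e3 : ((h.symm ⟨x, hclW x hx⟩).1 : realization K).1 b =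
        ((h.symm ⟨y, hclW y hy⟩).1 : realization K).1 b := by
      have s1 := hX.2.1
      have s2 := hY.2.1
      rw [← add_sum_erase univ _ (mem_univ b)] at s1 s2
      rw [sum_congr rfl (fun i hi => e2 i (mem_erase.1 hi).1)] at s1
      linarith
    have e4 : ((h.symm ⟨x, hclW x hx⟩).1 : realization K).1 =
        ((h.symm ⟨y, hclW y hy⟩).1 : realization K).1 := by
      funext i
      by_cases hib : i = b
      · rw [hib, e3]
      · exact e2 i hib
    have e5 := h.symm.injective (Subtype.ext (Subtype.ext e4))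
    exact congrArg Subtype.val e5
  have hnb := Pool.Agent.Helper514.IoD.image_mem_nhds f p.1 t ht hfc hfi
  -- the last coordinate
  have hlast : ∀ z ∈ f '' Metric.closedBall p.1 t, 0 ≤ z (Fin.last 3) := by
    rintro z ⟨x, hx, rfl⟩
    rw [hf, hg x (hclW x hx)]
    exact (h.symm ⟨x, hclW x hx⟩).1.2.1 _
  have hp0 : f p.1 (Fin.last 3) = 0 := by
    rw [hf, hg p.1 p.2, hvs3]
    have : (⟨p.1, p.2⟩ : W) = p := rfl
    rw [this, hsymm]
    by_contra hn
    exact haR ((hq a).2 hn)
  obtain ⟨η, hη, hη1⟩ := Metric.mem_nhds_iff.1 hnb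
  let z : EuclideanSpace ℝ (Fin 4) := f p.1 - EuclideanSpace.single (Fin.last 3) (η / 2)
  have hz : z ∈ Metric.ball (f p.1) η := by
    rw [Metric.mem_ball, dist_eq_norm]
    show ‖f p.1 - EuclideanSpace.single (Fin.last 3) (η / 2) - f p.1‖ < η
    rw [sub_sub_cancel_left, norm_neg, EuclideanSpace.norm_single, Real.norm_eq_abs,
      abs_of_pos (by positivity)]
    linarith
  have h5 := hlast z (hη1 hz)
  have h6 : z (Fin.last 3) = f p.1 (Fin.last 3) - η / 2 := by
    show (f p.1 - EuclideanSpace.single (Fin.last 3) (η / 2)) (Fin.last 3) = _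
    simp
  rw [h6, hp0] at h5
  linarith

end Pool.Agent.L0h6.LC
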