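import Pool.Agent.L0h44.LC.Stm2
import Pool.Agent.Y364.E3.Loc

/-!
# Project LC (helper44), module CON: the graph of a connected complex is connected
-/

set_option autoImplicit false

namespace Pool.Agent.L0h6.LC

open Finset Pool.Agent.H933R3 Pool.Agent.L0h44.LC
open Pool.Agent.Y364.E3 (supp mem_supp supp_mem supp_nonempty bary bary_mem supp_bary)

/-- CON -/
theorem t_CON : S_CON := by
  intro n D hD hpc u v hu hv
  let r : Fin n → Fin n → Prop := fun a b => ({a, b} : Finset (Fin n)) ∈ D
  let A : Set (realization D) := {x | ∃ i, Relation.ReflTransGen r u i ∧ x.1 i ≠ 0}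
  let B : Set (realization D) := {x | ∃ i, ¬ Relation.ReflTransGen r u i ∧ x.1 i ≠ 0}
  have hopen : ∀ P : Fin n → Prop, IsOpen {x : realization D | ∃ i, P i ∧ x.1 i ≠ 0} := by
    intro P
    have e : {x : realization D | ∃ i, P i ∧ x.1 i ≠ 0} = ⋃ i, {x : realization D | P i ∧ x.1 i ≠ 0} := by
      ext x
      simp
    rw [e]
    apply isOpen_iUnion
    intro i
    by_cases hP : P i
    · have e2 : {x : realization D | P i ∧ x.1 i ≠ 0} = (fun x : realization D => x.1 i) ⁻¹' {0}ᶜ := by
        ext x
        simp [hP]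
      rw [e2]
      exact isOpen_compl_singleton.preimage ((continuous_apply i).comp continuous_subtype_val)
    · have e2 : {x : realization D | P i ∧ x.1 i ≠ 0} = ∅ := by
        ext x
        simp [hP]
      rw [e2]
      exact isOpen_empty
  have hA : IsOpen A := hopen _
  have hB : IsOpen B := hopen _
  have hAB : Aᶜ = B := by
    ext x
    constructor
    · intro hx
      obtain ⟨i, hi⟩ := supp_nonempty x.2
      refine ⟨i, fun h => hx ⟨i, h, mem_supp.1 hi⟩, mem_supp.1 hi⟩
    · rintro ⟨j, hj, hxj⟩ ⟨i, hi, hxi⟩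
      apply hj
      refine hi.tail ?_
      show ({i, j} : Finset (Fin n)) ∈ D
      refine hD.2 _ (supp_mem hD x.2) _ ?_
      intro k hk
      rw [mem_insert, mem_singleton] at hk
      rcases hk with rfl | rfl
      · exact mem_supp.2 hxi
      · exact mem_supp.2 hxj
  have hcl : IsClopen A := ⟨by
    rw [← isOpen_compl_iff, hAB]; exact hB, hA⟩
  have hbu := bary_mem hu (singleton_nonempty u)
  have hbv := bary_mem hv (singleton_nonempty v)
  have hne : A.Nonempty := by
    refine ⟨⟨bary {u}, hbu⟩, u, Relation.ReflTransGen.refl, ?_⟩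
    show bary {u} u ≠ 0
    rw [← mem_supp, supp_bary]
    exact mem_singleton_self u
  have huniv := hcl.eq_univ hne
  have hvA : (⟨bary {v}, hbv⟩ : realization D) ∈ A := by rw [huniv]; exact Set.mem_univ _
  obtain ⟨i, hi, hi2⟩ := hvA
  have h3 : i ∈ supp (bary {v}) := mem_supp.2 hi2
  rw [supp_bary, mem_singleton] at h3
  rw [h3] at hi
  exact hi

end Pool.Agent.L0h6.LC
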